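import Pool.Agent.N949.AD.Sysm

/-!
# One family of switches: number of the switches, joint law, averages
-/

set_option autoImplicit false

namespace Pool.Agent.N949.AD

open TH966.AK Finset Pool.Agent.R131.LS
open Pool.Agent.N949.AO (Sl Oc CF TS Inv Pv Pv_card select)
open scoped Classical

/-- few switches in the family -/
noncomputable def fw (κ : ℕ) (ω : ℝ) (L : Finset (List P × List P)) (m : ℕ) (w : List P) : ℝ :=
  if κ * ((Sl L w).card : ℝ) < ω * ((m : ℝ) + 1) then 1 else 0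

theorem fw_nonneg (κ : ℕ) (ω : ℝ) (L : Finset (List P × List P)) (m : ℕ) (w : List P) :
    0 ≤ fw κ ω L m w := by
  unfold fw
  split_ifs <;> norm_num

theorem sel_ad (d : ℕ) : ∃ κ : ℕ, 1 ≤ κ ∧ ∀ {A : P → P → Prop} (Z : Rule A), Z.CC ≤ d →
    ∀ (e : P) (N : ℕ) (x : ℝ), 0 < x →
    ∀ (V : Finset P) (ω : ℝ) (n1 : ℕ), 0 < ω → (d : ℝ) * V.card ≤ ω * n1 →
    (∀ m, m < n1 → (sysE Z e).K m = ∅) →
    ∃ L : Finset (List P × List P), CF Z L ∧ (∀ q ∈ L, ∀ z ∈ q.1 ++ q.2, z ∉ V) ∧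
      Ex (sysE Z e) x N (fw κ ω L) ≤ 2 * Ex (sysE Z e) x N (bd (sysE Z e) (2 * ω)) +
        Real.exp (-(ω * n1 / κ)) * Ex (sysE Z e) x N (fun _ _ => 1) := by
  obtain ⟨κ, hκ, h⟩ := select d
  refine ⟨κ, hκ, ?_⟩
  intro A Z hd e N x hx V ω n1 hω hV hn1
  obtain ⟨L, hL, hLV, hsel⟩ := h Z hd (sysE Z e).K N x V hx
  have hκ0 : (0 : ℝ) < κ := by exact_mod_cast hκ
  refine ⟨L, hL, hLV, ?_⟩
  obtain ⟨b1, hb1⟩ : ∃ b1 : List P → ℝ, b1 = fun w =>
    if κ * (Sl L w).card < (Pv Z V w).card then (1 : ℝ) else 0 := ⟨_, rfl⟩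
  have hb10 : ∀ w, 0 ≤ b1 w := by
    intro w
    rw [hb1]
    dsimp only
    split_ifs <;> norm_num
  have hbd0 : ∀ m w, 0 ≤ bd (sysE Z e) (2 * ω) m w := by
    intro m w
    unfold bd
    split_ifs <;> norm_num
  have hBm : ∀ w : List P, ((sysE Z e).B w) = Z.B w := fun _ => rfl
  have hkey : ∀ m, ∀ w ∈ (sysE Z e).K m, bd (sysE Z e) (2 * ω) m w = 0 →
      ω * (m + 1) ≤ (Pv Z V w).card := by
    intro m w hw h0
    have hm : n1 ≤ m := by
      by_contra hcon
      rw [hn1 m (not_le.1 hcon)] at hw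
      exact absurd hw (Finset.notMem_empty _)
    have hm' : (n1 : ℝ) ≤ m := by exact_mod_cast hm
    unfold bd at h0
    have h2 : ¬ (((Z.B w).card : ℝ) < 2 * ω * ((m : ℝ) + 1)) := by
      intro hcon
      rw [if_pos (by rw [hBm]; exact hcon)] at h0
      exact one_ne_zero h0
    have h3 : ((Z.B w).card : ℝ) ≤ (Pv Z V w).card + Z.CC * V.card := by
      exact_mod_cast Pv_card Z V w
    have h4 : (Z.CC : ℝ) * V.card ≤ d * V.card :=
      mul_le_mul_of_nonneg_right (by exact_mod_cast hd) (Nat.cast_nonneg _)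
    have h5 : ω * n1 ≤ ω * (m + 1) := mul_le_mul_of_nonneg_left (by linarith) hω.le
    linarith [not_lt.1 h2]
  have hpt : ∀ m, ∀ w ∈ (sysE Z e).K m, fw κ ω L m w ≤ bd (sysE Z e) (2 * ω) m w + b1 w := by
    intro m w hw
    unfold fw
    split_ifs with h1
    · by_cases c2 : bd (sysE Z e) (2 * ω) m w = 0
      · have h3 := hkey m w hw c2
        have h4 : κ * (Sl L w).card < (Pv Z V w).card := by
          have : (κ : ℝ) * (Sl L w).card < (Pv Z V w).card := lt_of_lt_of_le h1 h3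
          exact_mod_cast this
        have h5 : b1 w = 1 := by rw [hb1]; exact if_pos h4
        rw [h5]
        linarith [hbd0 m w]
      · have h3 : bd (sysE Z e) (2 * ω) m w = 1 := by
          unfold bd at c2 ⊢
          split_ifs at c2 ⊢ with h8
          · rfl
          · exact absurd rfl c2
        rw [h3]
        linarith [hb10 w]
    · exact add_nonneg (hbd0 m w) (hb10 w)
  have hsum : Ex (sysE Z e) x N (fw κ ω L) ≤
      Ex (sysE Z e) x N (bd (sysE Z e) (2 * ω)) + Ex (sysE Z e) x N (fun _ w => b1 w) := by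
    unfold Ex
    rw [← sum_add_distrib]
    refine sum_le_sum fun m _ => ?_
    rw [← mul_add]
    refine mul_le_mul_of_nonneg_left ?_ (by positivity)
    rw [← sum_add_distrib]
    exact sum_le_sum fun w hw => hpt m w hw
  have hb1s : Ex (sysE Z e) x N (fun _ w => b1 w) ≤
      Ex (sysE Z e) x N (bd (sysE Z e) (2 * ω)) +
        Real.exp (-(ω * n1 / κ)) * Ex (sysE Z e) x N (fun _ _ => 1) := by
    have h1 : Ex (sysE Z e) x N (fun _ w => b1 w) = ∑ m ∈ range N, x ^ m *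
        ((((sysE Z e).K m).filter
          (fun w => κ * (Sl L w).card < (Pv Z V w).card)).card : ℝ) := by
      unfold Ex
      refine sum_congr rfl fun m _ => ?_
      rw [hb1, ← Finset.sum_filter, sum_const, nsmul_one]
    rw [h1]
    refine hsel.trans ?_
    unfold Ex
    rw [mul_sum, ← sum_add_distrib]
    refine sum_le_sum fun m _ => ?_
    rw [mul_left_comm, ← mul_add]
    refine mul_le_mul_of_nonneg_left ?_ (by positivity)
    rw [mul_sum, ← sum_add_distrib]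
    refine sum_le_sum fun w hw => ?_
    by_cases c2 : bd (sysE Z e) (2 * ω) m w = 0
    · rw [c2, zero_add, mul_one]
      refine Real.exp_le_exp.2 (neg_le_neg ?_)
      refine div_le_div_of_nonneg_right ((?_ : ω * n1 ≤ ω * (m + 1)).trans (hkey m w hw c2))
        hκ0.le
      have hm : n1 ≤ m := by
        by_contra hcon
        rw [hn1 m (not_le.1 hcon)] at hw
        exact absurd hw (Finset.notMem_empty _)
      have hm' : (n1 : ℝ) ≤ m := by exact_mod_cast hm
      exact mul_le_mul_of_nonneg_left (by linarith) hω.le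
    · have h3 : bd (sysE Z e) (2 * ω) m w = 1 := by
        unfold bd at c2 ⊢
        split_ifs at c2 ⊢ with h8
        · rfl
        · exact absurd rfl c2
      rw [h3]
      have h4 : Real.exp (-(((Pv Z V w).card : ℝ) / κ)) ≤ 1 := by
        rw [Real.exp_le_one_iff]
        have : 0 ≤ ((Pv Z V w).card : ℝ) / κ := by positivity
        linarith
      have h5 := (Real.exp_pos (-(ω * n1 / κ))).le
      linarith
  linarith

/-- averages of functions of the number of steps and of the second functional -/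
theorem avg {A : P → P → Prop} (Z : Rule A) (hs : Z.s = 2) (e : P) (N : ℕ) {x : ℝ} (hx : 0 < x)
    (hN : ∀ m, N ≤ m → (sysE Z e).K m = ∅) {L : Finset (List P × List P)} (hL : CF Z L)
    (Ar : List P → ℤ) (a : List P × List P → ℤ) (ha : ∀ q ∈ L, a q = 2 ∨ a q = -2)
    (hA : ∀ m, ∀ w ∈ (sysE Z e).K m, ∀ q ∈ Z.S w, q ∈ L → Ar (Rule.rep w q.1 q.2) = Ar w + a q)
    (F : List P → ℝ) (hF1 : ∀ m, ∀ w ∈ (sysE Z e).K m, |F w| ≤ 1)
    (hF : ∀ m, ∀ w ∈ (sysE Z e).K m, ∀ q ∈ Z.S w, q ∈ L → F (Rule.rep w q.1 q.2) = F w)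
    (h : ℤ × ℤ → ℝ) (β β' : ℕ → ℝ) (B ω : ℝ) (κ : ℕ)
    (hβ1 : ∀ (u : ℤ × ℤ) (n m : ℕ), |bb (x ^ 2) n m (fun z => h (u + z))| ≤
      β (n + m) * (1 + x ^ 2) ^ (n + m))
    (hβ : ∀ n, 0 ≤ β n ∧ β n ≤ B) (hβ'0 : ∀ m, 0 ≤ β' m)
    (hβ' : ∀ m n : ℕ, ω * (m + 1) ≤ κ * n → β n ≤ β' m) :
    |Ex (sysE Z e) x N (fun m w => F w * h ((m : ℤ), Ar w))| ≤
      Ex (sysE Z e) x N (fun m w => |F w| * β' m) +
        B * Ex (sysE Z e) x N (fw κ ω L) := by
  have hB0 : 0 ≤ B := (hβ 0).1.trans (hβ 0).2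
  have key := sys_mix Z hs e N hx hN hL Ar a ha hA F hF (fun _ _ z => h z)
  have key' : Ex (sysE Z e) x N (fun m w => F w * h ((m : ℤ), Ar w)) =
      Ex (sysE Z e) x N (fun _ w => F w *
        (bb (x ^ 2) (nm L a w).1 (nm L a w).2 (fun z => h (bs L a Ar w + z)) /
            (1 + x ^ 2) ^ ((nm L a w).1 + (nm L a w).2))) := key
  rw [key']
  have h1 : ∀ w, |bb (x ^ 2) (nm L a w).1 (nm L a w).2 (fun z => h (bs L a Ar w + z)) /
            (1 + x ^ 2) ^ ((nm L a w).1 + (nm L a w).2)| ≤ β (Sl L w).card := by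
    intro w
    have h2 : (0 : ℝ) < (1 + x ^ 2) ^ ((nm L a w).1 + (nm L a w).2) := by positivity
    rw [abs_div, abs_of_pos h2, div_le_iff₀ h2, ← nm_sum L a w]
    exact hβ1 _ _ _
  have hpt : ∀ m, ∀ w ∈ (sysE Z e).K m, |F w * (bb (x ^ 2) (nm L a w).1 (nm L a w).2
      (fun z => h (bs L a Ar w + z)) / (1 + x ^ 2) ^ ((nm L a w).1 + (nm L a w).2))| ≤
      |F w| * β' m + B * fw κ ω L m w := by
    intro m w hw
    rw [abs_mul]
    refine (mul_le_mul_of_nonneg_left (h1 w) (abs_nonneg _)).trans ?_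
    unfold fw
    split_ifs with h2
    · have h3 : |F w| * β (Sl L w).card ≤ 1 * B :=
        mul_le_mul (hF1 m w hw) (hβ _).2 (hβ _).1 zero_le_one
      have h4 : 0 ≤ |F w| * β' m := mul_nonneg (abs_nonneg _) (hβ'0 m)
      linarith
    · have h3 := hβ' m (Sl L w).card (not_lt.1 h2)
      have h4 := mul_le_mul_of_nonneg_left h3 (abs_nonneg (F w))
      linarith
  unfold Ex
  refine (abs_sum_le_sum_abs _ _).trans ?_
  rw [mul_sum, ← sum_add_distrib]
  refine sum_le_sum fun m _ => ?_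
  rw [abs_mul, abs_of_pos (by positivity : 0 < x ^ m), mul_left_comm B, ← mul_add]
  refine mul_le_mul_of_nonneg_left ?_ (by positivity)
  refine (abs_sum_le_sum_abs _ _).trans ?_
  rw [mul_sum, ← sum_add_distrib]
  exact sum_le_sum fun w hw => hpt m w hw

end Pool.Agent.N949.AD
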