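import Pool.Agent.N949.AD.Core
import Pool.Agent.N949.AO.Fin
import Pool.Agent.N933.AD.HEXA
import Pool.Agent.N457.AD.CHR
import Pool.Agent.N288.AD.DIF2

/-!
# The joint law of the number of steps and the area for the walk of the O(0) model in a domain
-/

set_option autoImplicit false

namespace Pool.Agent.N949.AD

open Finset TH966.AK Pool.Agent.R131.LS Pool.Agent.R131.LT
open Pool.Agent.Y981.QB
open Pool.Agent.W832.HR (Nbr Traj xc Z emb lv HD Hd Bd)
open Pool.Agent.N949.AO (ins_map' Unch x_sq num_a num_b exp_num bad_both Sl Oc CF)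
open scoped Classical ENNReal

/-- `∫ x dy` for the walk in the domain -/
def Ard (p : P) (w : List P) : ℤ := ar (w.map (pi p))

/-- the change of `∫ x dy` under a move -/
def aq (p : P) (q : List P × List P) : ℤ := ar (q.2.map (pi p)) - ar (q.1.map (pi p))

theorem hexa_pi (p : P) {U U' : List P} (h : Hex.T U U') (L R : List P) :
    (ar (U'.map (pi p)) = ar (U.map (pi p)) + 2 ∨ ar (U'.map (pi p)) = ar (U.map (pi p)) - 2) ∧
    ar ((L ++ U' ++ R).map (pi p)) = ar ((L ++ U ++ R).map (pi p)) +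
      (ar (U'.map (pi p)) - ar (U.map (pi p))) := by
  refine Pool.Agent.N933.AD.hexa p.1 p.2 (sg p) ?_ (pi p) (fun u => rfl) U U' L R h
  rcases sg_cases p with ⟨-, h⟩ | ⟨-, h⟩
  · exact Or.inl h
  · exact Or.inr h

theorem aq_cases {D : Set P} (p : P) {L : Finset (List P × List P)}
    (hL : CF (ruleD Hex.rule (Dp D p)) L) : ∀ q ∈ L, aq p q = 2 ∨ aq p q = -2 := by
  intro q hq
  obtain ⟨hT, -, -⟩ := hL.1 q hq
  have h := (hexa_pi p hT [] []).1
  unfold aq
  omega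

theorem Ard_rep {D : Set P} {p q : P} {m : ℕ} {w : List P}
    (hw : w ∈ (Yp D p q).K m) {z : List P × List P} (hz : z ∈ (ruleD Hex.rule (Dp D p)).S w) :
    Ard p (Rule.rep w z.1 z.2) = Ard p w + aq p z := by
  obtain ⟨U, U'⟩ := z
  have hw' : w ∈ (Kw (AD Hex.A (Dp D p)) m).filter (fun w => w.getLast? = some (ps p q)) := hw
  rw [Rule.mem_S] at hz
  rw [mem_filter, (ruleD Hex.rule (Dp D p)).mem_K] at hw'
  obtain ⟨L, R, h1, h2, -⟩ := Rule.rep_all ((ruleD Hex.rule (Dp D p)).pair _ _ hz.1)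
    hw'.1.2 hz.2
  have hT : Hex.T U U' := hz.1.1
  have h3 := (hexa_pi p hT L R).2
  unfold Ard aq
  simp only at h1 h2 ⊢
  rw [h2, h3, ← h1]

theorem map_pi_ps (p : P) (w : List P) : (w.map (pi p)).map (ps p) = w := by
  rw [List.map_map]
  have e : (ps p) ∘ (pi p) = id := by
    funext v
    exact ps_pi p v
  rw [e, List.map_id]

theorem num_k {k w : ℝ} (hk : 0 ≤ k) (hw : 0 < w) : k / w ≤ 18 * k / (5 * w) := by
  have e : 18 * k / (5 * w) = 18 / 5 * (k / w) := by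
    field_simp
  rw [e]
  have := div_nonneg hk hw.le
  linarith

set_option maxHeartbeats 2000000 in
theorem fin (W : Set ℂ) (hW : IsOpen W) (hc : IsConnected W)
    (a b : ℂ) (hab : a ≠ b) (ε ε' : ℝ) (hε : ε = 1 ∨ ε = -1) (hε' : ε' = 1 ∨ ε' = -1) (r : ℝ)
    (hr : 0 < r) (ha : HD a ε r ⊆ W) (hb : HD b ε' r ⊆ W) (M : ℝ) :
    ∃ K : Set ℂ, K ⊆ W ∧ IsCompact K ∧ ∃ C : ℝ, 1 ≤ C ∧ ∃ A : ℕ → ℝ,
      ∀ δ : ℝ, 0 < δ → C * δ ≤ 1 →
      ∀ (D : Set P) (p q : P), Bd ε p → Bd ε' q →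
      C * ‖(δ : ℂ) * emb p - a‖ ≤ 1 → C * ‖(δ : ℂ) * emb q - b‖ ≤ 1 →
      (∀ v : P, (δ : ℂ) * emb v ∈ K → v ∈ D) → Hd δ ε r p ⊆ D → Hd δ ε' r q ⊆ D →
      (∀ v ∈ D, ‖(δ : ℂ) * emb v‖ ≤ M) →
      ∀ x : ℝ, (x = xr ∨ (Closed D ∧ xr ≤ x ∧ x ≤ 544 / 1000)) →
      (Traj D p q).Finite ∧ 0 < Zx x D p q ∧
      (∀ l ∈ Traj D p q, 1 ≤ C * δ * ((l.length - 1 : ℕ) : ℝ)) ∧
      ∀ V : Finset P, C * δ * V.card ≤ 1 →
      ∃ (u : List P → ℤ × ℤ) (N : List P → ℕ × ℕ),
        Mx x D p q (fun l => if C * (((N l).1 + (N l).2 : ℕ) : ℝ) < ((l.length - 1 : ℕ) : ℝ)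
          then 1 else 0) ≤ C * Real.exp (-(1 / (C * δ))) ∧
        ∀ F : List P → ℝ, Unch D p q V F →
        (∀ h : ℤ × ℤ → ℕ × ℕ → ℤ × ℤ → ℝ,
          Mx x D p q (fun l => F l * h (u l) (N l) (((l.length - 1 : ℕ) : ℤ), ar l)) =
          Mx x D p q (fun l => F l * (bb (x ^ 2) (N l).1 (N l).2
            (fun z => h (u l) (N l) (u l + z)) / (1 + x ^ 2) ^ ((N l).1 + (N l).2)))) ∧
        ((∀ l ∈ Traj D p q, |F l| ≤ 1) →
          (∀ α β φ m : ℝ, 0 ≤ m → m ≤ Real.sin (α + β) ^ 2 → m ≤ Real.sin (α - β) ^ 2 →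
            |Mx x D p q (fun l => F l *
              Real.cos (α * ((l.length - 1 : ℕ) : ℝ) + β * (ar l : ℝ) + φ))| ≤
            C * (Mx x D p q (fun l => |F l| * Real.exp (-(m * ((l.length - 1 : ℕ) : ℝ) / C))) +
              Real.exp (-(1 / (C * δ))))) ∧
          ∀ (k : ℕ) (h : ℤ → ℝ), (∀ n, |h n| ≤ 1) →
            |Mx x D p q (fun l => F l * ∑ i ∈ range (k + 1), (-1 : ℝ) ^ i * (k.choose i : ℝ) *
              h (ar l + 2 * i))| ≤
            A k * (Mx x D p q (fun l => |F l| / Real.sqrt (((l.length - 1 : ℕ) : ℝ) + 1) ^ k) +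
              Real.exp (-(1 / (C * δ))))) := by
  obtain ⟨K, hK, hKc, C₁, hC₁, h⟩ := Pool.Agent.Y981.Sup.low W hW hc a b hab ε ε' hε hε' r hr ha hb
  obtain ⟨C₃, hC₃, hcard⟩ := domain_card M
  obtain ⟨ω, θ, C0, hω, hθ0, hθ1, hC0, hbadb⟩ := bad_both
  obtain ⟨κ, hκ, hsel⟩ := sel_ad Hex.rule.CC
  choose C₂ hC₂ hdif using Pool.Agent.N288.AD.dif2
  have hκ0 : (0 : ℝ) < κ := by exact_mod_cast hκ
  have hab' : 0 < ‖a - b‖ := norm_pos_iff.2 (sub_ne_zero.2 hab)
  obtain ⟨CC, hCC⟩ : ∃ c : ℝ, c = (Hex.rule.CC : ℝ) := ⟨_, rfl⟩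
  have hCC0 : 0 ≤ CC := by rw [hCC]; exact Nat.cast_nonneg _
  obtain ⟨s, hs⟩ : ∃ s : ℝ, s = Real.sqrt θ := ⟨_, rfl⟩
  have hs0 : 0 < s := by rw [hs]; exact Real.sqrt_pos.2 hθ0
  have hss : s * s = θ := by rw [hs]; exact Real.mul_self_sqrt hθ0.le
  have hs1 : s < 1 := by
    rw [hs, Real.sqrt_lt' one_pos, one_pow]
    exact hθ1
  obtain ⟨B, hB0, hB⟩ := absorb C₁ hs0.le hs1
  obtain ⟨lam, hlam⟩ : ∃ lam : ℝ, lam = -Real.log s := ⟨_, rfl⟩
  have hlam0 : 0 < lam := by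
    rw [hlam]
    have := Real.log_neg hs0 hs1
    linarith
  obtain ⟨c1, hc1⟩ : ∃ c1 : ℝ, c1 = ‖a - b‖ / 2 := ⟨_, rfl⟩
  have hc1pos : 0 < c1 := by rw [hc1]; positivity
  obtain ⟨G, hG⟩ : ∃ G : ℝ, G = 2 * C0 * B / c1 ^ C₁ + 1 := ⟨_, rfl⟩
  have hG0 : 0 ≤ 2 * C0 * B / c1 ^ C₁ := by positivity
  obtain ⟨c2, hc2⟩ : ∃ c2 : ℝ, c2 = min (lam * c1) (ω / κ * c1) := ⟨_, rfl⟩
  have hc2pos : 0 < c2 := by rw [hc2]; exact lt_min (by positivity) (by positivity)
  have d1 : 0 < 32 / ‖a - b‖ := by positivity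
  have d2 : 0 < 1 / c1 := by positivity
  have d3 : 0 < 1 / c2 := by positivity
  have d4 : 0 ≤ CC / (ω * c1) := by positivity
  have d5 : 0 < 18 * κ / (5 * ω) := by positivity
  obtain ⟨C, hCdef⟩ : ∃ C : ℝ, C = C₁ + 100 + 32 / ‖a - b‖ + 1 / c1 + 1 / c2 +
    CC / (ω * c1) + 18 * κ / (5 * ω) + G := ⟨_, rfl⟩
  have hC1r : (9 : ℝ) ≤ C₁ := by exact_mod_cast hC₁
  have hC100 : 100 ≤ C := by rw [hCdef]; linarith
  have hCC1 : (C₁ : ℝ) ≤ C := by rw [hCdef]; linarith
  have hCab : 32 / ‖a - b‖ ≤ C := by rw [hCdef]; linarith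
  have hCc : 1 / c1 ≤ C := by rw [hCdef]; linarith
  have hCc2 : 1 / c2 ≤ C := by rw [hCdef]; linarith
  have hCV : CC / (ω * c1) ≤ C := by rw [hCdef]; linarith
  have hCω : 18 * κ / (5 * ω) ≤ C := by rw [hCdef]; linarith
  have hCG : G ≤ C := by rw [hCdef]; linarith
  have hCpos : 0 < C := by linarith
  refine ⟨K, hK, hKc, C, by linarith,
    fun k => C₂ k * (Real.sqrt (κ / ω) ^ k + G), ?_⟩
  intro δ hδ hCδ D p q hp hq hpa hqb hKD hpD hqD hDM x hx
  have hxr : xr ≤ x ∧ x ≤ 1 := by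
    rcases hx with rfl | ⟨-, h1, h2⟩
    · exact ⟨le_rfl, xr_le⟩
    · exact ⟨h1, by linarith⟩
  have hx0 : 0 < x := lt_of_lt_of_le xr_pos hxr.1
  have hx1 : x ≤ 1 := hxr.2
  obtain ⟨hy0, hy1⟩ := x_sq hxr.1 hxr.2
  have hδ1 : δ ≤ 1 / 100 := num_a hC100 hδ hCδ
  have hmono : ∀ x : ℝ, 0 ≤ x → C * x ≤ 1 → C₁ * x ≤ 1 := fun x hx h1 =>
    (mul_le_mul_of_nonneg_right hCC1 hx).trans h1
  obtain ⟨hpq, hlow⟩ := h δ hδ (hmono δ hδ.le hCδ) D p q hp hq (hmono _ (norm_nonneg _) hpa)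
    (hmono _ (norm_nonneg _) hqb) hKD hpD hqD
  obtain ⟨D', hD', hDc⟩ := hcard δ hδ (by linarith) D hDM
  have hpm : p ∈ D := hpD (by
    show ‖(δ : ℂ) * emb p - δ * emb p‖ < r ∧ 0 ≤ ε * (lv (emb p) - lv (emb p))
    simp [hr])
  have hfin : (Traj D p q).Finite := by
    rw [traj_eq, ← coe_TT hpm D' hD']
    exact Finset.finite_toSet _
  have hZlow : δ ^ C₁ ≤ Zx x D p q := by
    have h1 := hlow D (Set.Subset.refl D)
    rw [Z_eq hpm D' hD'] at h1
    have h2 : δ ^ C₁ ≤ Zr D p q := by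
      refine (ENNReal.ofReal_le_ofReal_iff ?_).1 h1
      unfold Zr
      exact finsum_nonneg fun l => finsum_nonneg fun _ => by
        have := xr_pos
        positivity
    refine h2.trans ?_
    unfold Zr Zx
    rw [finsum_mem_eq_finite_toFinset_sum _ hfin, finsum_mem_eq_finite_toFinset_sum _ hfin]
    exact Finset.sum_le_sum fun l _ => pow_le_pow_left₀ xr_pos.le hxr.1 _
  have hZ : 0 < Zx x D p q := lt_of_lt_of_le (by positivity) hZlow
  have hgood := good_Yx (q := q) hpm D' hD' hx0 hx1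
  -- the walks are long
  have hdL : c1 / δ ≤ dst p q := by
    rw [hc1]
    exact far hδ (by
      have := mul_le_mul_of_nonneg_right hCab hab'.le
      rw [div_mul_cancel₀ _ hab'.ne'] at this
      linarith) (by linarith) hpa hqb
  have hlong : ∀ m, ∀ w ∈ (Yp D p q).K m, c1 / δ ≤ m := by
    intro m w hw
    obtain ⟨h1, h2⟩ := (mem_Yp hpm).1 hw
    refine hdL.trans (sw_far (l := w.map (pi p)) (n := m) ?_ h2.2.1).1
    refine ⟨by rw [List.length_map, h1], h2.1, h2.2.2.2.1, h2.2.2.1⟩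
  obtain ⟨n1, hn1⟩ : ∃ n1 : ℕ, n1 = ⌈c1 / δ⌉₊ := ⟨_, rfl⟩
  have hcd : 0 < c1 / δ := by positivity
  have hn1c : c1 / δ ≤ n1 := by rw [hn1]; exact Nat.le_ceil _
  have hn1p : 0 < (n1 : ℝ) := lt_of_lt_of_le hcd hn1c
  have hn1' : 1 ≤ n1 := by exact_mod_cast hn1p
  have hKn : ∀ m, m < n1 → (Yp D p q).K m = ∅ := by
    intro m hm
    rw [Finset.eq_empty_iff_forall_notMem]
    intro w hw
    have h1 := hlong m w hw
    have h2 : n1 ≤ m := by
      rw [hn1]
      exact Nat.ceil_le.2 h1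
    omega
  have hKbig : ∀ m, D'.card ≤ m → (Yp D p q).K m = ∅ := hgood.big
  refine ⟨hfin, hZ, ?_, ?_⟩
  · intro l hl
    have hl' : l ∈ Tj D p q := by rw [← traj_eq]; exact hl
    have hne : l ≠ [] := by
      rintro rfl
      have := hl'.1
      simp at this
    have hlen : 1 ≤ l.length := List.length_pos_of_ne_nil hne
    have h1 : (l.map (ps p)) ∈ (Yp D p q).K (l.length - 1) := by
      rw [mem_Yp hpm, List.length_map, List.map_map]
      have e : (pi p) ∘ (ps p) = id := by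
        funext v
        exact pi_ps p v
      rw [e, List.map_id]
      exact ⟨by omega, hl'⟩
    have h2 := hlong _ _ h1
    have h3 : 1 / c1 * δ * (c1 / δ) = 1 := by field_simp
    calc (1 : ℝ) = 1 / c1 * δ * (c1 / δ) := h3.symm
      _ ≤ C * δ * ((l.length - 1 : ℕ) : ℝ) :=
          mul_le_mul (mul_le_mul_of_nonneg_right hCc hδ.le) h2 hcd.le (by positivity)
  intro V hV
  -- the error term
  have hbad : Ex (Yp D p q) x D'.card (bd (Yp D p q) (2 * ω)) ≤ C0 * θ ^ n1 :=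
    hbadb D p q x D'.card n1 hpm hx hn1' hKn
  have herr : 2 * Ex (Yp D p q) x D'.card (bd (Yp D p q) (2 * ω)) +
      Real.exp (-(ω * n1 / κ)) * Zx x D p q ≤
      G * Real.exp (-(1 / (C * δ))) * Zx x D p q := by
    have e1 : s ^ n1 ≤ Real.exp (-(lam * c1 / δ)) := by
      have h1 : s ^ n1 = Real.exp (-(lam * n1)) := by
        rw [hlam, neg_mul, neg_neg, mul_comm, Real.exp_nat_mul, Real.exp_log hs0]
      rw [h1]
      exact exp_num hlam0.le hn1c
    have e2 : s ^ n1 * c1 ^ C₁ ≤ B * Zx x D p q := by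
      have h1 : (c1 / δ) ^ C₁ ≤ (n1 : ℝ) ^ C₁ := pow_le_pow_left₀ hcd.le hn1c _
      have h2 : s ^ n1 * (c1 / δ) ^ C₁ ≤ B := by
        refine (mul_le_mul_of_nonneg_left h1 (by positivity)).trans ?_
        rw [mul_comm]
        exact hB n1
      calc s ^ n1 * c1 ^ C₁ = s ^ n1 * (c1 / δ) ^ C₁ * δ ^ C₁ := by
            rw [div_pow]
            field_simp
        _ ≤ B * Zx x D p q := mul_le_mul h2 hZlow (by positivity) hB0
    have e3 : Real.exp (-(lam * c1 / δ)) ≤ Real.exp (-(1 / (C * δ))) := by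
      refine Real.exp_le_exp.2 (neg_le_neg ?_)
      exact num_b hc2pos hCpos hCc2 (by rw [hc2]; exact min_le_left _ _) hδ
    have e4 : Real.exp (-(ω * n1 / κ)) ≤ Real.exp (-(1 / (C * δ))) := by
      have h0 : ω * n1 / κ = ω / κ * n1 := by ring
      rw [h0]
      refine (exp_num (by positivity) hn1c).trans (Real.exp_le_exp.2 (neg_le_neg ?_))
      exact num_b hc2pos hCpos hCc2 (by rw [hc2]; exact min_le_right _ _) hδ
    have e5 : θ ^ n1 ≤ B / c1 ^ C₁ * Real.exp (-(1 / (C * δ))) * Zx x D p q := by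
      rw [← hss, mul_pow]
      have h1 : s ^ n1 ≤ B / c1 ^ C₁ * Zx x D p q := by
        rw [div_mul_eq_mul_div, le_div_iff₀ (by positivity)]
        exact e2
      calc s ^ n1 * s ^ n1 ≤ B / c1 ^ C₁ * Zx x D p q * Real.exp (-(1 / (C * δ))) :=
            mul_le_mul h1 (e1.trans e3) (by positivity) (by positivity)
        _ = _ := by ring
    have e6 : 2 * (C0 * θ ^ n1) ≤
        2 * C0 * B / c1 ^ C₁ * Real.exp (-(1 / (C * δ))) * Zx x D p q := by
      have := mul_le_mul_of_nonneg_left e5 (show 0 ≤ 2 * C0 by positivity)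
      refine le_trans (le_of_eq ?_) (this.trans (le_of_eq ?_)) <;> ring
    have e7 := mul_le_mul_of_nonneg_right e4 hZ.le
    rw [hG, add_mul, add_mul, one_mul]
    linarith
  have hGexp : 0 ≤ G * Real.exp (-(1 / (C * δ))) := by
    rw [hG]
    positivity
  -- one family
  have hVc : ((Hex.rule.CC : ℕ) : ℝ) * (V.image (ps p)).card ≤ ω * n1 := by
    have h1 : ((V.image (ps p)).card : ℝ) ≤ V.card := by exact_mod_cast card_image_le
    rw [← hCC]
    refine (mul_le_mul_of_nonneg_left h1 hCC0).trans ?_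
    refine le_trans ?_ (mul_le_mul_of_nonneg_left hn1c hω.le)
    have h2 : CC ≤ C * (ω * c1) := by
      rwa [div_le_iff₀ (by positivity)] at hCV
    rw [mul_div_assoc', le_div_iff₀ hδ]
    calc CC * V.card * δ ≤ C * (ω * c1) * V.card * δ := by
          refine mul_le_mul_of_nonneg_right (mul_le_mul_of_nonneg_right h2 ?_) hδ.le
          exact Nat.cast_nonneg _
      _ = ω * c1 * (C * δ * V.card) := by ring
      _ ≤ ω * c1 * 1 := mul_le_mul_of_nonneg_left hV (by positivity)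
      _ = ω * c1 := mul_one _
  obtain ⟨L, hL, hLV, hfew⟩ := hsel (ruleD Hex.rule (Dp D p)) le_rfl (ps p q)
    D'.card x hx0 (V.image (ps p)) ω n1 hω hVc hKn
  have hfew' : Ex (Yp D p q) x D'.card (fw κ ω L) ≤
      2 * Ex (Yp D p q) x D'.card (bd (Yp D p q) (2 * ω)) +
        Real.exp (-(ω * n1 / κ)) * Ex (Yp D p q) x D'.card (fun _ _ => 1) := hfew
  rw [← Zx_eq hpm D' hD'] at hfew'
  have hfew2 : Ex (Yp D p q) x D'.card (fw κ ω L) ≤
      G * Real.exp (-(1 / (C * δ))) * Zx x D p q := hfew'.trans herr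
  have hMx : ∀ g : ℕ → List P → ℝ, Mx x D p q (fun l => g (l.length - 1) l) =
      Ex (Yp D p q) x D'.card (fun m w => g m (w.map (pi p))) / Zx x D p q := by
    intro g
    unfold Mx
    rw [sumx_eq hpm D' hD' x g]
  have hκω : κ / ω ≤ C := by
    exact (num_k hκ0.le hω).trans hCω
  have haq := aq_cases p hL
  refine ⟨fun l => bs L (aq p) (Ard p) (l.map (ps p)), fun l => nm L (aq p) (l.map (ps p)), ?_, ?_⟩
  · have e1 := hMx (fun m l => if C * (((nm L (aq p) (l.map (ps p))).1 +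
      (nm L (aq p) (l.map (ps p))).2 : ℕ) : ℝ) < (m : ℝ) then 1 else 0)
    rw [e1, div_le_iff₀ hZ]
    have h1 : Ex (Yp D p q) x D'.card (fun m w => if C * (((nm L (aq p)
        ((w.map (pi p)).map (ps p))).1 + (nm L (aq p) ((w.map (pi p)).map (ps p))).2 : ℕ) : ℝ) <
        (m : ℝ) then 1 else 0) ≤ Ex (Yp D p q) x D'.card (fw κ ω L) := by
      unfold Ex
      refine Finset.sum_le_sum fun m _ => mul_le_mul_of_nonneg_left
        (Finset.sum_le_sum fun w _ => ?_) (by positivity)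
      dsimp only
      rw [map_pi_ps, nm_sum]
      unfold fw
      split_ifs with c1 c2
      · exact le_rfl
      · exfalso
        refine c2 ?_
        have h2 : (κ : ℝ) ≤ ω * C := by
          rw [div_le_iff₀ hω] at hκω
          linarith
        have h3 : (κ : ℝ) * ((Sl L w).card : ℝ) ≤ ω * C * ((Sl L w).card : ℝ) :=
          mul_le_mul_of_nonneg_right h2 (Nat.cast_nonneg _)
        have h4 := mul_lt_mul_of_pos_left c1 hω
        have h5 : ω * (m : ℝ) ≤ ω * ((m : ℝ) + 1) := mul_le_mul_of_nonneg_left (by linarith) hω.le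
        linarith
      · exact zero_le_one
      · exact le_rfl
    refine h1.trans (hfew2.trans ?_)
    exact mul_le_mul_of_nonneg_right
      (mul_le_mul_of_nonneg_right hCG (Real.exp_pos _).le) hZ.le
  intro F hU
  have hFinv : ∀ m, ∀ w ∈ (Yp D p q).K m, ∀ z ∈ (ruleD Hex.rule (Dp D p)).S w, z ∈ L →
      F ((Rule.rep w z.1 z.2).map (pi p)) = F (w.map (pi p)) := by
    intro m w hw z hz hzL
    have hzV := hLV z hzL
    obtain ⟨L', R, u1, u2, u3, u4⟩ := ins_map' hw hz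
    have t1 : w.map (pi p) ∈ Traj D p q := by
      rw [traj_eq]
      exact ((mem_Yp hpm).1 hw).2
    have t2 : (Rule.rep w z.1 z.2).map (pi p) ∈ Traj D p q := by
      rw [traj_eq]
      exact ((mem_Yp hpm).1 ((Yp D p q).ins_K m w z hw hz)).2
    rw [u3] at t1 ⊢
    rw [u4] at t2 ⊢
    refine hU L' _ _ R (by rw [List.length_map]; exact u1) (by rw [List.length_map]; exact u2)
      ?_ t1 t2
    intro v hv hvV
    rw [← List.map_append, List.mem_map] at hv
    obtain ⟨y, hy, rfl⟩ := hv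
    refine hzV y hy (mem_image.2 ⟨pi p y, hvV, ps_pi p y⟩)
  have hArd : ∀ m, ∀ w ∈ (sysE (ruleD Hex.rule (Dp D p)) (ps p q)).K m,
      ∀ z ∈ (ruleD Hex.rule (Dp D p)).S w, z ∈ L →
      Ard p (Rule.rep w z.1 z.2) = Ard p w + aq p z := fun m w hw z hz _ => Ard_rep (D := D) hw hz
  refine ⟨?_, ?_⟩
  · intro h'
    have e1 := hMx (fun m l => F l * h' (bs L (aq p) (Ard p) (l.map (ps p)))
      (nm L (aq p) (l.map (ps p))) ((m : ℤ), ar l))
    have e2 := hMx (fun _ l => F l * (bb (x ^ 2) (nm L (aq p) (l.map (ps p))).1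
      (nm L (aq p) (l.map (ps p))).2 (fun z => h' (bs L (aq p) (Ard p) (l.map (ps p)))
        (nm L (aq p) (l.map (ps p))) (bs L (aq p) (Ard p) (l.map (ps p)) + z)) /
          (1 + x ^ 2) ^ ((nm L (aq p) (l.map (ps p))).1 + (nm L (aq p) (l.map (ps p))).2)))
    rw [e1, e2]
    congr 1
    simp only [map_pi_ps]
    exact sys_mix (ruleD Hex.rule (Dp D p)) rfl (ps p q) D'.card hx0 hKbig hL (Ard p) (aq p) haq
      hArd (fun w => F (w.map (pi p))) hFinv h'
  intro hF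
  have hF' : ∀ m, ∀ w ∈ (sysE (ruleD Hex.rule (Dp D p)) (ps p q)).K m,
      |F (w.map (pi p))| ≤ 1 := by
    intro m w hw
    refine hF _ ?_
    rw [traj_eq]
    exact ((mem_Yp hpm).1 hw).2
  have hcore : ∀ (h' : ℤ × ℤ → ℝ) (β β' : ℕ → ℝ) (B' : ℝ), 0 ≤ B' →
      (∀ (u : ℤ × ℤ) (n m : ℕ), |bb (x ^ 2) n m (fun z => h' (u + z))| ≤
        β (n + m) * (1 + x ^ 2) ^ (n + m)) →
      (∀ n, 0 ≤ β n ∧ β n ≤ B') → (∀ m, 0 ≤ β' m) →
      (∀ m n : ℕ, ω * (m + 1) ≤ κ * n → β n ≤ β' m) →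
      |Mx x D p q (fun l => F l * h' (((l.length - 1 : ℕ) : ℤ), ar l))| ≤
        Mx x D p q (fun l => |F l| * β' (l.length - 1)) +
          B' * (G * Real.exp (-(1 / (C * δ)))) := by
    intro h' β β' B' hB' hβ1 hβ hβ0 hβ'
    have hmm := avg (ruleD Hex.rule (Dp D p)) rfl (ps p q) D'.card hx0 hKbig hL (Ard p) (aq p)
      haq hArd (fun w => F (w.map (pi p))) hF' hFinv h' β β' B' ω κ hβ1 hβ hβ0 hβ'
    have e1 := hMx (fun m l => F l * h' ((m : ℤ), ar l))
    have e2 := hMx (fun m l => |F l| * β' m)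
    rw [e1, e2, abs_div, abs_of_pos hZ, div_le_iff₀ hZ, add_mul, div_mul_cancel₀ _ hZ.ne']
    refine hmm.trans (add_le_add le_rfl ?_)
    rw [mul_assoc B']
    exact mul_le_mul_of_nonneg_left hfew2 hB'
  constructor
  · intro α β₀ φ m₀ hm0 hm1 hm2
    have h1 := hcore (fun z => Real.cos (α * z.1 + β₀ * z.2 + φ))
      (fun n => Real.exp (-(5 / 18 * m₀ * (n : ℝ))))
      (fun m => Real.exp (-(m₀ * m / C))) 1 zero_le_one
      (fun u n m => by
        have h2 := Pool.Agent.N457.AD.chr (x ^ 2) hy0 hy1 α β₀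
          (α * u.1 + β₀ * u.2 + φ) m₀ n m hm1 hm2
        have e1 : (fun z : ℤ × ℤ => Real.cos (α * z.1 + β₀ * z.2 + (α * u.1 + β₀ * u.2 + φ))) =
            fun z => Real.cos (α * (u + z).1 + β₀ * (u + z).2 + φ) := by
          funext z
          congr 1
          simp only [Prod.fst_add, Prod.snd_add]
          push_cast
          ring
        rw [e1] at h2
        exact h2) (fun n => ⟨(Real.exp_pos _).le, by
        rw [Real.exp_le_one_iff]
        have : 0 ≤ 5 / 18 * m₀ * (n : ℝ) := by positivity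
        linarith⟩) (fun m => (Real.exp_pos _).le) (by
        intro m n hmn
        refine Real.exp_le_exp.2 (neg_le_neg ?_)
        have h2 : (m : ℝ) / C ≤ 5 / 18 * n := by
          rw [div_le_iff₀ hCpos]
          rw [div_le_iff₀ (by positivity)] at hCω
          have h3 : ω * m ≤ κ * n := by linarith
          have h4 : 18 * κ * n ≤ C * (5 * ω) * n :=
            mul_le_mul_of_nonneg_right hCω (Nat.cast_nonneg _)
          have h5 : 18 * (ω * m) ≤ C * (5 * ω) * n := by linarith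
          have h6 : ω * (18 * m) ≤ ω * (5 * n * C) := by linarith
          have h7 := le_of_mul_le_mul_left h6 hω
          linarith
        have h3 := mul_le_mul_of_nonneg_left h2 hm0
        have e1 : m₀ * m / C = m₀ * (m / C) := by ring
        have e2 : 5 / 18 * m₀ * n = m₀ * (5 / 18 * n) := by ring
        rw [e1, e2]
        exact h3)
    have h1' : |Mx x D p q (fun l => F l *
        Real.cos (α * ((l.length - 1 : ℕ) : ℝ) + β₀ * (ar l : ℝ) + φ))| ≤
        Mx x D p q (fun l => |F l| * Real.exp (-(m₀ * ((l.length - 1 : ℕ) : ℝ) / C))) +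
          1 * (G * Real.exp (-(1 / (C * δ)))) := by
      simp only [Int.cast_natCast] at h1
      exact h1
    refine h1'.trans ?_
    rw [mul_add, one_mul]
    have hMx0 : 0 ≤ Mx x D p q (fun l => |F l| *
        Real.exp (-(m₀ * ((l.length - 1 : ℕ) : ℝ) / C))) := by
      rw [Mx_eq x hfin]
      refine div_nonneg (Finset.sum_nonneg fun l _ => ?_) (Finset.sum_nonneg fun l _ => ?_)
      · positivity
      · positivity
    refine add_le_add ?_ (mul_le_mul_of_nonneg_right hCG (Real.exp_pos _).le)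
    exact le_mul_of_one_le_left hMx0 (by linarith)
  · intro k g hg
    have hκω : 0 ≤ Real.sqrt (κ / ω) := Real.sqrt_nonneg _
    have h1 := hcore (fun z => ∑ i ∈ range (k + 1), (-1 : ℝ) ^ i * (k.choose i : ℝ) *
        g (z.2 + 2 * i))
      (fun n => C₂ k / Real.sqrt (n + 1) ^ k)
      (fun m => C₂ k * Real.sqrt (κ / ω) ^ k / Real.sqrt (m + 1) ^ k) (C₂ k) (hC₂ k).le
      (fun u n m => hdif k (x ^ 2) hy0 hy1 n m u.2 g hg) (fun n => ⟨by
        have := hC₂ k
        positivity, by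
        have h2 : (1 : ℝ) ≤ Real.sqrt (n + 1) := by
          rw [Real.one_le_sqrt]
          have : (0 : ℝ) ≤ n := Nat.cast_nonneg _
          linarith
        exact div_le_self (hC₂ k).le (one_le_pow₀ h2)⟩) (fun m => by
        have := hC₂ k
        positivity) (by
        intro m n hmn
        have hn0 : (0 : ℝ) ≤ n := Nat.cast_nonneg _
        have hm0 : (0 : ℝ) ≤ m := Nat.cast_nonneg _
        have h2 : Real.sqrt (m + 1) ≤ Real.sqrt (κ / ω) * Real.sqrt (n + 1) := by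
          rw [← Real.sqrt_mul (by positivity)]
          refine Real.sqrt_le_sqrt ?_
          rw [div_mul_eq_mul_div, le_div_iff₀ hω]
          linarith
        have h3 : Real.sqrt (m + 1) ^ k ≤ Real.sqrt (κ / ω) ^ k * Real.sqrt (n + 1) ^ k := by
          rw [← mul_pow]
          exact pow_le_pow_left₀ (Real.sqrt_nonneg _) h2 k
        have h4 : 0 < Real.sqrt ((m : ℝ) + 1) := Real.sqrt_pos.2 (by linarith)
        have h5 : 0 < Real.sqrt ((n : ℝ) + 1) := Real.sqrt_pos.2 (by linarith)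
        rw [div_le_div_iff₀ (by positivity) (by positivity)]
        have := mul_le_mul_of_nonneg_left h3 (hC₂ k).le
        linarith)
    refine h1.trans ?_
    have e1 : Mx x D p q (fun l => |F l| * (C₂ k * Real.sqrt (κ / ω) ^ k /
        Real.sqrt (((l.length - 1 : ℕ) : ℝ) + 1) ^ k)) = C₂ k * Real.sqrt (κ / ω) ^ k *
        Mx x D p q (fun l => |F l| / Real.sqrt (((l.length - 1 : ℕ) : ℝ) + 1) ^ k) := by
      rw [Mx_eq x hfin, Mx_eq x hfin, ← mul_div_assoc, mul_sum]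
      congr 1
      refine Finset.sum_congr rfl fun l _ => ?_
      ring
    rw [e1]
    have hM0 : 0 ≤ Mx x D p q (fun l => |F l| /
        Real.sqrt (((l.length - 1 : ℕ) : ℝ) + 1) ^ k) := by
      rw [Mx_eq x hfin]
      refine div_nonneg (Finset.sum_nonneg fun l _ => ?_) (Finset.sum_nonneg fun l _ => ?_)
      · positivity
      · positivity
    have hG1 : 0 ≤ G := by rw [hG]; linarith
    have h2 : 0 ≤ C₂ k * G * Mx x D p q (fun l => |F l| /
        Real.sqrt (((l.length - 1 : ℕ) : ℝ) + 1) ^ k) :=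
      mul_nonneg (mul_nonneg (hC₂ k).le hG1) hM0
    have h3 : 0 ≤ C₂ k * Real.sqrt (κ / ω) ^ k * Real.exp (-(1 / (C * δ))) := by
      have := hC₂ k
      positivity
    simp only [mul_add, add_mul]
    linarith

end Pool.Agent.N949.AD
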