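import Pool.Agent.N787.CM.MIXS
import Pool.Agent.N402.CM.MIXB

/-!
# Weighted averages over the classes of a system of switches
-/

set_option autoImplicit false

namespace Pool.Agent.N949.AD

open Finset
open scoped Classical

theorem sum_pow_card {κ : Type} (E : Finset κ) (y : ℝ) :
    ∑ T ∈ E.powerset, y ^ T.card = (1 + y) ^ E.card := by
  have h := Finset.prod_one_add (s := E) (f := fun _ => y)
  rw [prod_const] at h
  rw [h]
  exact sum_congr rfl fun T _ => by rw [prod_const]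

/-- weighted version of MIXS -/
theorem mixw {α κ β : Type} (Ω : Finset α) (Sl Oc : α → Finset κ) (f : α → κ → α)
    (h1 : ∀ w ∈ Ω, Oc w ⊆ Sl w)
    (h2 : ∀ w ∈ Ω, ∀ q ∈ Sl w, f w q ∈ Ω ∧ Sl (f w q) = Sl w ∧ f (f w q) q = w ∧
      (q ∈ Oc w → Oc (f w q) = (Oc w).erase q) ∧ (q ∉ Oc w → Oc (f w q) = insert q (Oc w)))
    (K : α → β) (hK : ∀ w ∈ Ω, ∀ q ∈ Sl w, K (f w q) = K w) {y : ℝ} (hy : 0 < y)
    (W : β → ℝ) (Φ : β → Finset κ → ℝ) :
    ∑ w ∈ Ω, W (K w) * y ^ (Oc w).card * Φ (K w) (Oc w) =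
      ∑ w ∈ Ω, W (K w) * y ^ (Oc w).card *
        ((∑ T ∈ (Sl w).powerset, y ^ T.card * Φ (K w) T) / (1 + y) ^ (Sl w).card) := by
  have hK' : ∀ w ∈ Ω, ∀ q ∈ Sl w, (K (f w q), Sl (f w q)) = (K w, Sl w) := by
    intro w hw q hq
    rw [hK w hw q hq, (h2 w hw q hq).2.1]
  have e1 := Pool.Agent.N787.CM.mixs Ω Sl Oc f h1 h2 (fun w => (K w, Sl w)) hK'
    (fun k T => W k.1 * y ^ T.card * Φ k.1 T)
  have e2 := Pool.Agent.N787.CM.mixs Ω Sl Oc f h1 h2 (fun w => (K w, Sl w)) hK'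
    (fun k T => W k.1 * y ^ T.card *
      ((∑ T ∈ k.2.powerset, y ^ T.card * Φ k.1 T) / (1 + y) ^ k.2.card))
  dsimp only at e1 e2
  rw [e1, e2]
  refine sum_congr rfl fun w _ => ?_
  congr 1
  have hy1 : (0 : ℝ) < (1 + y) ^ (Sl w).card := by positivity
  rw [← sum_mul, ← mul_sum, sum_pow_card, mul_assoc, mul_div_cancel₀ _ hy1.ne', mul_sum]
  exact sum_congr rfl fun T _ => by ring

end Pool.Agent.N949.AD
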