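import Pool.Agent.TH966.AK.Hex

/-!
# Project AD (helper949): the area to the left of the walk of the O(0) model, statement HEXA
-/

set_option autoImplicit false

namespace Pool.Agent.N949.AD

open TH966.AK

/-- `∫ x dy` along a list of points (vertical or horizontal steps) -/
def ar : List P → ℤ
  | [] => 0
  | [_] => 0
  | a :: b :: t => a.1 * (b.2 - a.2) + ar (b :: t)

/-- HEXA: the change of `∫ x dy` under the move of the honeycomb lattice (brick wall coordinates)
which replaces two edges of a hexagon by the four others, after a map `f` of the plane -/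
def S_HEXA : Prop := ∀ c d s : ℤ, (s = 1 ∨ s = -1) → ∀ f : P → P,
  (∀ u, f u = (u.1 + c, d + s * u.2)) → ∀ U U' L R : List P, Hex.T U U' →
    (ar (U'.map f) = ar (U.map f) + 2 ∨ ar (U'.map f) = ar (U.map f) - 2) ∧
    ar ((L ++ U' ++ R).map f) = ar ((L ++ U ++ R).map f) + (ar (U'.map f) - ar (U.map f))

end Pool.Agent.N949.AD
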