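import Pool.Agent.N949.AO.Osc

/-!
# Project AD (helper949): sums of two independent binomial random variables, statements CHR, DIF2
-/

set_option autoImplicit false

namespace Pool.Agent.N949.AD

open Finset

/-- `(1 + y) ^ (N + M)` times the mean value of `h (2 (B + B'), 2 (B - B'))` for independent binomial
`B`, `B'` with parameters `N`, `y / (1 + y)` and `M`, `y / (1 + y)` -/
noncomputable def bb (y : ℝ) (N M : ℕ) (h : ℤ × ℤ → ℝ) : ℝ :=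
  ∑ j ∈ range (N + 1), ∑ i ∈ range (M + 1), ((N.choose j : ℝ) * (M.choose i : ℝ) * y ^ (j + i)) *
    h (2 * ((j : ℤ) + i), 2 * ((j : ℤ) - i))

/-- CHR: characteristic function -/
def S_CHR : Prop := ∀ y : ℝ, 1 / 5 ≤ y → y ≤ 5 → ∀ (α β φ m : ℝ) (N M : ℕ),
  m ≤ Real.sin (α + β) ^ 2 → m ≤ Real.sin (α - β) ^ 2 →
    |bb y N M (fun z => Real.cos (α * z.1 + β * z.2 + φ))| ≤
      Real.exp (-(5 / 18 * m * ((N + M : ℕ) : ℝ))) * (1 + y) ^ (N + M)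

/-- DIF2: iterated differences in the second variable -/
def S_DIF2 : Prop := ∀ k : ℕ, ∃ C : ℝ, 0 < C ∧ ∀ y : ℝ, 1 / 5 ≤ y → y ≤ 5 →
  ∀ (N M : ℕ) (A : ℤ) (g : ℤ → ℝ), (∀ a, |g a| ≤ 1) →
    |bb y N M (fun z => ∑ r ∈ range (k + 1), (-1 : ℝ) ^ r * (k.choose r : ℝ) *
      g (A + z.2 + 2 * r))| ≤ C / Real.sqrt ((N + M : ℕ) + 1) ^ k * (1 + y) ^ (N + M)

end Pool.Agent.N949.AD
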