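import Pool.Agent.N949.AD.Two
import Pool.Agent.N949.AO.Dom

/-!
# The joint law of the number of steps and a second functional, for systems of walks
-/

set_option autoImplicit false

namespace Pool.Agent.N949.AD

open TH966.AK Finset Pool.Agent.R131.LS
open Pool.Agent.N949.AO (Sl Oc CF TS Inv)
open scoped Classical

variable {A : P → P → Prop}

/-- the type of a switch -/
noncomputable def tt (a : List P × List P → ℤ) (q : List P × List P) : Fin 2 :=
  if a q = 2 then 0 else 1

/-- the part of the functionals which does not depend on the switches -/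
noncomputable def bs (L : Finset (List P × List P)) (a : List P × List P → ℤ) (Ar : List P → ℤ)
    (w : List P) : ℤ × ℤ :=
  (((w.length - 1 : ℕ) : ℤ), Ar w) - ∑ q ∈ Oc L w, v2 (tt a q)

/-- the numbers of the switches of the two types -/
noncomputable def nm (L : Finset (List P × List P)) (a : List P × List P → ℤ) (w : List P) :
    ℕ × ℕ :=
  (((Sl L w).filter (fun q => tt a q = 0)).card, ((Sl L w).filter (fun q => tt a q = 1)).card)

theorem nm_sum (L : Finset (List P × List P)) (a : List P × List P → ℤ) (w : List P) :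
    (nm L a w).1 + (nm L a w).2 = (Sl L w).card := by
  unfold nm
  dsimp only
  have h : (Sl L w).filter (fun q => tt a q = 1) = (Sl L w).filter (fun q => ¬ tt a q = 0) := by
    refine filter_congr fun q _ => ?_
    unfold tt
    split_ifs <;> simp
  rw [h]
  exact Finset.card_filter_add_card_filter_not _

theorem hts (Z : Rule A) (hs : 1 ≤ Z.s) (e : P) {L : Finset (List P × List P)} (hL : CF Z L) :
    TS (sysE Z e).K Z.s (Sl L) (Oc L) (fun w q => Rule.rep w q.1 q.2)
      (fun w q => Rule.rep w q.2 q.1) := by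
  have hp : Pool.Agent.N949.AO.PInv Z (fun w : List P => w.getLast? = some e) := by
    intro w q hw hT hf
    dsimp only
    rw [rep_last (Z.pair _ _ hT) hw hf]
  have h1 := Pool.Agent.N97.AO.tg Z hs L hL (fun w : List P => w.getLast? = some e) hp
  have h2 : (sysE Z e).K = fun n => @Finset.filter _ (fun w : List P => w.getLast? = some e)
      (fun a => Classical.propDecidable _) (Kw A n) := by
    funext n
    ext w
    have h3 : w ∈ (sysE Z e).K n ↔ w ∈ Kw A n ∧ w.getLast? = some e :=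
      Finset.mem_filter
    rw [h3]
    exact (@Finset.mem_filter _ (fun w : List P => w.getLast? = some e)
      (fun a => Classical.propDecidable _) _ _).symm
  rw [h2]
  exact h1

theorem k_len (Z : Rule A) (e : P) {n : ℕ} {w : List P} (hw : w ∈ (sysE Z e).K n) :
    w.length = n + 1 := by
  have hw' : w ∈ (Kw A n).filter (fun w => w.getLast? = some e) := hw
  rw [mem_filter, Z.mem_K] at hw'
  exact hw'.1.1

/-- the joint law of the number of steps and of a functional `Ar` which is changed by `a q = ± 2`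
by the switch `q` -/
theorem sys_mix (Z : Rule A) (hs : Z.s = 2) (e : P) (N : ℕ) {x : ℝ} (hx : 0 < x)
    (hN : ∀ m, N ≤ m → (sysE Z e).K m = ∅) {L : Finset (List P × List P)} (hL : CF Z L)
    (Ar : List P → ℤ) (a : List P × List P → ℤ) (ha : ∀ q ∈ L, a q = 2 ∨ a q = -2)
    (hA : ∀ m, ∀ w ∈ (sysE Z e).K m, ∀ q ∈ Z.S w, q ∈ L → Ar (Rule.rep w q.1 q.2) = Ar w + a q)
    (F : List P → ℝ)
    (hF : ∀ m, ∀ w ∈ (sysE Z e).K m, ∀ q ∈ Z.S w, q ∈ L → F (Rule.rep w q.1 q.2) = F w)
    (h : ℤ × ℤ → ℕ × ℕ → ℤ × ℤ → ℝ) :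
    Ex (sysE Z e) x N (fun m w => F w * h (bs L a Ar w) (nm L a w) ((m : ℤ), Ar w)) =
      Ex (sysE Z e) x N (fun _ w => F w *
        (bb (x ^ 2) (nm L a w).1 (nm L a w).2
          (fun z => h (bs L a Ar w) (nm L a w) (bs L a Ar w + z)) /
            (1 + x ^ 2) ^ ((nm L a w).1 + (nm L a w).2))) := by
  have hTS := hts Z (by omega) e hL
  rw [hs] at hTS
  obtain ⟨on, hon⟩ : ∃ on : List P → List P × List P → List P,
    ∀ w q, on w q = Rule.rep w q.1 q.2 := ⟨_, fun _ _ => rfl⟩
  obtain ⟨off, hoff⟩ : ∃ off : List P → List P × List P → List P,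
    ∀ w q, off w q = Rule.rep w q.2 q.1 := ⟨_, fun _ _ => rfl⟩
  have e0 : (fun w q => Rule.rep w q.1 q.2) = on := by funext w q; rw [hon]
  have e0' : (fun w q => Rule.rep w q.2 q.1) = off := by funext w q; rw [hoff]
  rw [e0, e0'] at hTS
  obtain ⟨Ω, hΩ⟩ : ∃ Ω, Ω = @Finset.biUnion _ _ (fun a b => Classical.propDecidable (a = b))
    (range N) (sysE Z e).K := ⟨_, rfl⟩
  have hmem : ∀ w, w ∈ Ω ↔ ∃ m, m < N ∧ w ∈ (sysE Z e).K m := by
    intro w
    rw [hΩ, @Finset.mem_biUnion _ _ _ _ (fun a b => Classical.propDecidable (a = b))]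
    simp only [mem_range]
  have hS : ∀ m, ∀ w ∈ (sysE Z e).K m, ∀ q ∈ Sl L w, q ∉ Oc L w → q ∈ Z.S w ∧ q ∈ L := by
    intro m w _ q hq hq'
    rw [Pool.Agent.N97.AO.mem_Sl] at hq
    rw [Pool.Agent.N97.AO.mem_Oc] at hq'
    have h1 : Free q.1 q.2 w := hq.2.resolve_right fun h => hq' ⟨hq.1, h⟩
    exact ⟨Z.mem_S.2 ⟨hL.1 q hq.1, h1⟩, hq.1⟩
  -- the flip
  obtain ⟨f, hf⟩ : ∃ f : List P → List P × List P → List P,
    ∀ w q, f w q = if q ∈ Oc L w then off w q else on w q := ⟨_, fun _ _ => rfl⟩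
  have hflip : ∀ w ∈ Ω, ∀ q ∈ Sl L w, f w q ∈ Ω ∧ Sl L (f w q) = Sl L w ∧ f (f w q) q = w ∧
      (q ∈ Oc L w → Oc L (f w q) =
        @Finset.erase _ (fun a b => Classical.propDecidable (a = b)) (Oc L w) q) ∧
      (q ∉ Oc L w → Oc L (f w q) =
        @insert _ _ (@Finset.instInsert _ (fun a b => Classical.propDecidable (a = b))) q
          (Oc L w)) := by
    intro w hw q hq
    obtain ⟨m, hm, hwm⟩ := (hmem w).1 hw
    by_cases hq' : q ∈ Oc L w
    · obtain ⟨m', hm', h3⟩ := hTS.off_K m w hwm q hq'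
      have h4 := hTS.off_Sl m w hwm q hq'
      have h5 := hTS.off_Oc m w hwm q hq'
      have h6 := hTS.on_off m w hwm q hq'
      have e1 : f w q = off w q := by rw [hf, if_pos hq']
      rw [e1]
      refine ⟨(hmem _).2 ⟨m', by omega, h3⟩, h4, ?_, fun _ => h5, fun h => absurd hq' h⟩
      rw [hf, if_neg (by rw [h5]; simp), h6]
    · have h3 := hTS.on_K m w hwm q hq hq'
      have h4 := hTS.on_Sl m w hwm q hq hq'
      have h5 := hTS.on_Oc m w hwm q hq hq'
      have h6 := hTS.off_on m w hwm q hq hq'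
      have e1 : f w q = on w q := by rw [hf, if_neg hq']
      have h7 : m + 2 < N := by
        by_contra hcon
        rw [hN _ (not_lt.1 hcon)] at h3
        exact absurd h3 (Finset.notMem_empty _)
      rw [e1]
      refine ⟨(hmem _).2 ⟨m + 2, h7, h3⟩, h4, ?_, fun h => absurd h hq', fun _ => h5⟩
      rw [hf, if_pos (by
        rw [h5]
        exact @Finset.mem_insert_self _ (fun a b => Classical.propDecidable (a = b)) _ _), h6]
  have hinv : ∀ {γ : Type} (G : List P → γ), Inv (sysE Z e).K (Sl L) (Oc L) on G →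
      ∀ w ∈ Ω, ∀ q ∈ Sl L w, G (f w q) = G w := by
    intro γ G hG w hw q hq
    obtain ⟨m, hm, hwm⟩ := (hmem w).1 hw
    by_cases hq' : q ∈ Oc L w
    · obtain ⟨m', hm', h3⟩ := hTS.off_K m w hwm q hq'
      have h4 := hTS.off_Sl m w hwm q hq'
      have h5 := hTS.off_Oc m w hwm q hq'
      have h6 := hTS.on_off m w hwm q hq'
      have e1 : f w q = off w q := by rw [hf, if_pos hq']
      have h7 := hG m' (off w q) h3 q (by rw [h4]; exact hq) (by rw [h5]; simp)
      rw [e1, ← h7, h6]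
    · have e1 : f w q = on w q := by rw [hf, if_neg hq']
      rw [e1]
      exact hG m w hwm q hq hq'
  have iF : Inv (sysE Z e).K (Sl L) (Oc L) on F := by
    intro m w hw q hq hq'
    obtain ⟨h1, h2⟩ := hS m w hw q hq hq'
    rw [hon]
    exact hF m w hw q h1 h2
  have iN : Inv (sysE Z e).K (Sl L) (Oc L) on (nm L a) := by
    intro m w hw q hq hq'
    unfold nm
    rw [hTS.on_Sl m w hw q hq hq']
  have iB : Inv (sysE Z e).K (Sl L) (Oc L) on (bs L a Ar) := by
    intro m w hw q hq hq'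
    obtain ⟨h1, h2⟩ := hS m w hw q hq hq'
    have h3 : (on w q).length = m + 2 + 1 := k_len Z e (hTS.on_K m w hw q hq hq')
    have h4 : w.length = m + 1 := k_len Z e hw
    have h5 : Ar (on w q) = Ar w + a q := by
      rw [hon]
      exact hA m w hw q h1 h2
    have h6 : v2 (tt a q) = (2, a q) := by
      unfold tt
      rcases ha q h2 with h7 | h7 <;> rw [h7] <;> rfl
    have h8 : ∑ q' ∈ Oc L (on w q), v2 (tt a q') =
        v2 (tt a q) + ∑ q' ∈ Oc L w, v2 (tt a q') := by
      rw [hTS.on_Oc m w hw q hq hq']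
      exact @Finset.sum_insert _ _ _ _ _ _ (fun a b => Classical.propDecidable (a = b)) hq'
    unfold bs
    rw [h8, h3, h4, h5, h6]
    refine Prod.ext ?_ ?_
    · have e1 : ((m + 2 + 1 - 1 : ℕ) : ℤ) = m + 2 := by omega
      have e2 : ((m + 1 - 1 : ℕ) : ℤ) = m := by omega
      rw [e1, e2]
      simp only [Prod.fst_sub, Prod.fst_add]
      ring
    · simp only [Prod.snd_sub, Prod.snd_add]
      ring
  -- the key
  have key := mixw Ω (Sl L) (Oc L) f (fun w hw => by
      obtain ⟨m, hm, hwm⟩ := (hmem w).1 hw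
      exact hTS.sub m w hwm) hflip (fun w => (F w, bs L a Ar w, nm L a w))
    (fun w hw q hq => by
      rw [hinv F iF w hw q hq, hinv _ iN w hw q hq, hinv _ iB w hw q hq])
    (y := x ^ 2) (by positivity) (fun k => x ^ k.2.1.1.toNat)
    (fun k T => k.1 * h k.2.1 k.2.2 (k.2.1 + ∑ q ∈ T, v2 (tt a q)))
  -- weights
  have hw0 : ∀ w ∈ Ω, ((w.length - 1 : ℕ) : ℤ) = (bs L a Ar w).1 + 2 * ((Oc L w).card : ℤ) ∧
      0 ≤ (bs L a Ar w).1 := by
    intro w hw
    obtain ⟨m, hm, hwm⟩ := (hmem w).1 hw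
    have h1 : (bs L a Ar w).1 = ((w.length - 1 : ℕ) : ℤ) - 2 * ((Oc L w).card : ℤ) := by
      unfold bs
      rw [Prod.fst_sub, v2_sum]
    have h2 := Pool.Agent.N691.AO.len (sysE Z e).K 2 (Sl L) (Oc L) on off hTS m w hwm
    have h3 := k_len Z e hwm
    rw [h1]
    constructor
    · ring
    · have : m = w.length - 1 := by omega
      rw [← this]
      omega
  have hweight : ∀ w ∈ Ω, x ^ (w.length - 1) =
      x ^ (bs L a Ar w).1.toNat * (x ^ 2) ^ (Oc L w).card := by
    intro w hw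
    obtain ⟨h1, h2⟩ := hw0 w hw
    rw [← pow_mul, ← pow_add]
    congr 1
    omega
  have flat : ∀ g : List P → ℝ, ∑ m ∈ range N, x ^ m * ∑ w ∈ (sysE Z e).K m, g w =
      ∑ w ∈ Ω, x ^ (w.length - 1) * g w := by
    intro g
    have h1 := Pool.Agent.N949.AO.flat (K := (sysE Z e).K) (fun w => w.length - 1)
      (fun n w hw => by rw [k_len Z e hw]; omega) N x (fun _ w => g w)
    rw [hΩ]
    exact h1
  unfold Ex
  have g1 : ∀ m ∈ range N, x ^ m * ∑ w ∈ (sysE Z e).K m,
      F w * h (bs L a Ar w) (nm L a w) ((m : ℤ), Ar w) =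
      x ^ m * ∑ w ∈ (sysE Z e).K m,
        F w * h (bs L a Ar w) (nm L a w) (((w.length - 1 : ℕ) : ℤ), Ar w) := by
    intro m _
    congr 1
    refine sum_congr rfl fun w hw => ?_
    have h1 : w.length - 1 = m := by rw [k_len Z e hw]; omega
    rw [h1]
  rw [sum_congr rfl g1, flat, flat]
  have g2 : ∀ w ∈ Ω, x ^ (w.length - 1) * (F w * h (bs L a Ar w) (nm L a w)
      (((w.length - 1 : ℕ) : ℤ), Ar w)) =
      x ^ (bs L a Ar w).1.toNat * (x ^ 2) ^ (Oc L w).card * (F w * h (bs L a Ar w) (nm L a w)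
        (bs L a Ar w + ∑ q ∈ Oc L w, v2 (tt a q))) := by
    intro w hw
    rw [hweight w hw]
    have h1 : bs L a Ar w + ∑ q ∈ Oc L w, v2 (tt a q) = (((w.length - 1 : ℕ) : ℤ), Ar w) := by
      unfold bs
      rw [sub_add_cancel]
    rw [h1]
  rw [sum_congr rfl g2]
  refine key.trans (sum_congr rfl fun w hw => ?_)
  dsimp only
  rw [← hweight w hw]
  congr 1
  have g3 : ∑ T ∈ (Sl L w).powerset, (x ^ 2) ^ T.card *
      (F w * h (bs L a Ar w) (nm L a w) (bs L a Ar w + ∑ q ∈ T, v2 (tt a q))) =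
      F w * ∑ T ∈ (Sl L w).powerset, (x ^ 2) ^ T.card *
      h (bs L a Ar w) (nm L a w) (bs L a Ar w + ∑ q ∈ T, v2 (tt a q)) := by
    rw [mul_sum]
    exact sum_congr rfl fun T _ => by ring
  rw [g3, two_types, nm_sum, mul_div_assoc]
  rfl

end Pool.Agent.N949.AD
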