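import Pool.Agent.N949.AD.Mixw
import Pool.Agent.N949.AD.StmB

/-!
# Two types of switches
-/

set_option autoImplicit false

namespace Pool.Agent.N949.AD

open Finset
open scoped Classical

/-- the two vectors -/
def v2 : Fin 2 → ℤ × ℤ := ![(2, 2), (2, -2)]

theorem v2_sum {κ : Type} (T : Finset κ) (τ : κ → Fin 2) :
    (∑ q ∈ T, v2 (τ q)).1 = 2 * (T.card : ℤ) := by
  rw [Prod.fst_sum]
  have : ∀ q ∈ T, (v2 (τ q)).1 = 2 := by
    intro q _
    have h : ∀ t : Fin 2, (v2 t).1 = 2 := by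
      intro t
      fin_cases t <;> rfl
    exact h _
  rw [sum_congr rfl this, sum_const, nsmul_eq_mul]
  ring

theorem sum_two (s : Fin 2 → Finset ℕ) (g : (Fin 2 → ℕ) → ℝ) :
    ∑ j ∈ Fintype.piFinset s, g j = ∑ a ∈ s 0, ∑ b ∈ s 1, g ![a, b] := by
  rw [← Finset.sum_product']
  refine Finset.sum_nbij' (fun j => (j 0, j 1)) (fun x => ![x.1, x.2]) ?_ ?_ ?_ ?_ ?_
  · intro j hj
    rw [Fintype.mem_piFinset] at hj
    exact mem_product.2 ⟨hj 0, hj 1⟩
  · intro x hx
    rw [mem_product] at hx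
    rw [Fintype.mem_piFinset]
    intro t
    fin_cases t
    · exact hx.1
    · exact hx.2
  · intro j _
    funext t
    fin_cases t <;> rfl
  · intro x _
    rfl
  · intro j _
    congr 1
    funext t
    fin_cases t <;> rfl

theorem two_types {κ : Type} (E : Finset κ) (τ : κ → Fin 2) (y : ℝ) (u : ℤ × ℤ)
    (g : ℤ × ℤ → ℝ) :
    ∑ T ∈ E.powerset, y ^ T.card * g (u + ∑ q ∈ T, v2 (τ q)) =
      bb y (E.filter (fun q => τ q = 0)).card (E.filter (fun q => τ q = 1)).card
        (fun z => g (u + z)) := by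
  have h := Pool.Agent.N402.CM.mixb E τ v2
    (fun z : ℤ × ℤ => y ^ (z.1.toNat / 2) * g (u + z)) 0
  have e1 : ∀ T ∈ E.powerset, y ^ T.card * g (u + ∑ q ∈ T, v2 (τ q)) =
      (fun z : ℤ × ℤ => y ^ (z.1.toNat / 2) * g (u + z)) (0 + ∑ q ∈ T, v2 (τ q)) := by
    intro T _
    have e2 : (0 + ∑ q ∈ T, v2 (τ q)).1.toNat / 2 = T.card := by
      rw [zero_add, v2_sum]
      omega
    simp only [e2]
    rw [zero_add]
  rw [sum_congr rfl e1]
  refine h.trans ?_
  have e3 : ∀ t : Fin 2, (@Finset.filter _ (fun q => τ q = t)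
      (fun q => Classical.propDecidable (τ q = t)) E).card =
      (E.filter (fun q => τ q = t)).card := by
    intro t
    refine congrArg card ?_
    ext q
    simp only [mem_filter]
  simp only [e3]
  have e4 : @Fintype.piFinset (Fin 2) (fun a b => Classical.propDecidable (a = b)) _ _
      (fun t => range ((E.filter (fun q => τ q = t)).card + 1)) =
      Fintype.piFinset (fun t => range ((E.filter (fun q => τ q = t)).card + 1)) := by
    ext j
    simp only [Fintype.mem_piFinset]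
  rw [e4, sum_two]
  unfold bb
  refine sum_congr rfl fun a _ => sum_congr rfl fun b _ => ?_
  rw [Fin.prod_univ_two, Fin.sum_univ_two]
  have e5 : (0 : ℤ × ℤ) + ((![a, b] : Fin 2 → ℕ) 0 • v2 0 + (![a, b] : Fin 2 → ℕ) 1 • v2 1) =
      (2 * ((a : ℤ) + b), 2 * ((a : ℤ) - b)) := by
    refine Prod.ext ?_ ?_
    · simp [v2]
      ring
    · simp [v2]
      ring
  rw [e5]
  have e6 : (2 * ((a : ℤ) + b), 2 * ((a : ℤ) - b)).1.toNat / 2 = a + b := by
    show (2 * ((a : ℤ) + b)).toNat / 2 = a + b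
    omega
  simp only [e6]
  simp only [Matrix.cons_val_zero, Matrix.cons_val_one]
  ring

end Pool.Agent.N949.AD
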